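import Pool.Agent.PW.StmtsA

set_option autoImplicit false

/-!
# Squad PW, row DFI: the dual derivations and the filtration
-/

namespace Pool.Agent.PW.H68

open MvPolynomial
open Pool.Agent.RS (FF io)
open Pool.Agent.PW

theorem filt_zero_of {E : Type} [Field E] {ρ c0 k : ℕ} {y : Fin ρ → MvPolynomial ℕ E}
    {J1 : Finset ℕ} {Fi : ℕ → FF E → Prop} (hF : Filt c0 k y J1 Fi) :
    ∀ (j l : ℕ) (w : FF E), Fi (j + l) w → Fi j w := by
  intro j l
  induction l with
  | zero => intro w h; simpa using h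
  | succ l ih => intro w h; exact ih w (hF.mono _ _ (by simpa [add_assoc] using h))

theorem filt_sum {E : Type} [Field E] {ρ c0 k : ℕ} {y : Fin ρ → MvPolynomial ℕ E}
    {J1 : Finset ℕ} {Fi : ℕ → FF E → Prop} (hF : Filt c0 k y J1 Fi) (j : ℕ)
    {ι : Type} (s : Finset ι) (f : ι → FF E) (h : ∀ i ∈ s, Fi j (f i)) :
    Fi j (∑ i ∈ s, f i) := by
  classical
  induction s using Finset.induction_on with
  | empty => simpa using hF.zero j
  | insert a s ha ih =>
    rw [Finset.sum_insert ha]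
    exact hF.add _ _ _ (h a (Finset.mem_insert_self a s))
      (ih fun i hi => h i (Finset.mem_insert_of_mem hi))

theorem filt_mul_left {E : Type} [Field E] {ρ c0 k : ℕ} {y : Fin ρ → MvPolynomial ℕ E}
    {J1 : Finset ℕ} {Fi : ℕ → FF E → Prop} (hF : Filt c0 k y J1 Fi) (j : ℕ) (v w : FF E)
    (hv : Fi 0 v) (hw : Fi j w) : Fi j (v * w) := by
  have := hF.mul 0 j v w hv hw
  rwa [Nat.zero_add] at this

/-- ROW DFI. -/
theorem dfi (hDLT : DltStmt) : DfiStmt := by
  intro E _ _ ρ c0 k y G J1 z Fi hy hGJ hz hzJ hF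
  obtain ⟨-, ⟨Δ, hΔ0, hΔv, hn⟩, -⟩ := hDLT E ρ y G z hy hz
  have hV : ∀ a b, Fi 0 ((VV y z)⁻¹ a b) := by
    intro a b
    obtain ⟨n, hnv, hnab⟩ := hn a b
    rw [hnab, div_eq_mul_inv]
    refine filt_mul_left hF 0 _ _ (hF.poly n) (hF.unitJ Δ hΔ0 ?_)
    intro i hi
    rcases Finset.mem_union.1 (hΔv hi) with h | h
    · obtain ⟨b, -, rfl⟩ := Finset.mem_image.1 h
      exact hzJ b
    · exact hGJ h
  have hdel : ∀ a w, del y z a w = ∑ b, (VV y z)⁻¹ a b * dd (z b) w := by
    intro a w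
    have h1 := map_sum (Derivation.coeFnAddMonoidHom : Derivation E (FF E) (FF E) →+ (FF E → FF E))
      (fun b => (VV y z)⁻¹ a b • dd (z b)) Finset.univ
    have h2 := congrFun h1 w
    rw [Finset.sum_apply] at h2
    refine h2.trans (Finset.sum_congr rfl fun b _ => ?_)
    change ((VV y z)⁻¹ a b • dd (z b)) w = _
    rw [Derivation.smul_apply, smul_eq_mul]
  constructor
  · intro a w hw
    rw [hdel]
    exact filt_sum hF 0 _ _ fun b _ => filt_mul_left hF 0 _ _ (hV a b) (hF.der0 _ (hzJ b) _ hw)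
  · intro a j w hw
    rw [hdel]
    exact filt_sum hF j _ _ fun b _ => filt_mul_left hF j _ _ (hV a b) (hF.der _ (hzJ b) j _ hw)

end Pool.Agent.PW.H68
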